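import Mathlib
import Pool.Agent.Lib.helper19.Rigid

namespace Pool.Agent.Results.MP_5382b1_gt.Yes

open TopologicalSpace

def Homogeneous (Y : Type) [TopologicalSpace Y] : Prop := ∀ x y : Y, ∃ h : Y ≃ₜ Y, h x = y

def SigmaHomogeneous (X : Type) [TopologicalSpace X] : Prop :=
  ∃ Z : ℕ → Set X, (∀ n, Homogeneous (Z n)) ∧ ⋃ n, Z n = Set.univ

def Rigid (X : Type) [TopologicalSpace X] : Prop := Nontrivial X ∧ ∀ h : X ≃ₜ X, ∀ x, h x = x

def ZeroDim (X : Type) [TopologicalSpace X] : Prop := IsTopologicalBasis {s : Set X | IsClopen s}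

theorem homog_sub {Y : Type} [TopologicalSpace Y] {A X : Set Y} (hA : A ⊆ X)
    (h : Homogeneous A) : Homogeneous (Subtype.val ⁻¹' A : Set X) := by
  let e : (Subtype.val ⁻¹' A : Set X) ≃ₜ A :=
    { toFun := fun x => ⟨x.1.1, x.2⟩
      invFun := fun x => ⟨⟨x.1, hA x.2⟩, x.2⟩
      left_inv := fun _ => rfl
      right_inv := fun _ => rfl
      continuous_toFun := by fun_prop
      continuous_invFun := by fun_prop }
  intro x y
  obtain ⟨g, hg⟩ := h (e x) (e y)
  exact ⟨e.trans (g.trans e.symm), by simp [hg]⟩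

open Pool.Agent.Lib.helper19.Rigid in
theorem result : ∃ X : Set (ℕ → ZMod 2), SeparableSpace X ∧ MetrizableSpace X ∧ ZeroDim X ∧
    SigmaHomogeneous X ∧ Rigid X := by
  obtain ⟨G, H, hG, h1, -⟩ := main
  refine ⟨↑G ∪ ↑H, inferInstance, inferInstance, zero_dim _,
    ⟨fun n => Subtype.val ⁻¹' (if n = 0 then (G : Set Om) else H), fun n => ?_, ?_⟩, ?_,
    fun h x => h1 _ le_rfl Set.inter_subset_right _ isOpen_univ Set.inter_subset_right h x trivial⟩
  · cases n
    · exact homog_sub Set.subset_union_left (homog G)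
    · exact homog_sub Set.subset_union_right (homog H)
  · refine Set.eq_univ_of_forall fun x => Set.mem_iUnion.2 ?_
    rcases x.2 with h | h
    · exact ⟨0, by simpa using h⟩
    · exact ⟨1, by simpa using h⟩
  · obtain ⟨x, hx, hx'⟩ := hG.inter_open_nonempty {0}ᶜ isOpen_compl_singleton
      ⟨1, fun h => by simpa using congrFun h 0⟩
    exact ⟨⟨x, Or.inl hx'⟩, ⟨0, Or.inl G.zero_mem⟩, fun h => hx (congrArg Subtype.val h)⟩

end Pool.Agent.Results.MP_5382b1_gt.Yes
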